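import Pool.Agent.Lib.MP_acafa7_al.MS.Iface2

/-! Module CutM: Lemma 8.2, cutting an annulus along an interior loop. -/

namespace MSG.H14

open Classical Finset

section

variable {V D : Type} {a : Equiv.Perm V}

theorem face_next {M : DMap D} {l : List D} (h : M.IsFace l) {d : D} (hd : d ∈ l) : M.φ d ∈ l := by
  have : M.φ d ∈ l.map M.φ := List.mem_map_of_mem hd
  rw [h.2.2, List.mem_rotate] at this
  exact this

theorem stab_iff [Fintype D] (φ : Equiv.Perm D) (S : Set D) (h : ∀ d ∈ S, φ d ∈ S) (d : D) :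
    φ d ∈ S ↔ d ∈ S := by
  constructor
  · intro hd
    have := Equiv.Perm.perm_symm_mapsTo_of_mapsTo φ (s := S) h hd
    rwa [Equiv.symm_apply_apply] at this
  · exact h d

/-- all darts of a face are in a union of faces, or none -/
theorem face_all {M : DMap D} {l : List D} (h : M.IsFace l) {S : Set D}
    (hS : ∀ d, M.φ d ∈ S ↔ d ∈ S) {x y : D} (hx : x ∈ l) (hy : y ∈ l) : x ∈ S ↔ y ∈ S := by
  have h0 : 0 < l.length := List.length_pos_iff.2 h.1
  have key : ∀ (i : ℕ) (hi : i < l.length), l[i] ∈ S ↔ l[0] ∈ S := by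
    intro i
    induction i with
    | zero => intro _; exact Iff.rfl
    | succ i ih =>
      intro hi
      have hi' : i < l.length := by omega
      rw [← ih hi', ← hS l[i]]
      have e1 : (l.map M.φ)[i]'(by simpa using hi') = M.φ l[i] := by simp
      have e2 : (l.rotate 1)[i]'(by simpa using hi') = l[(i + 1) % l.length]'(Nat.mod_lt _ h0) := by
        rw [List.getElem_rotate]
      have e3 : (l.map M.φ)[i]'(by simpa using hi') = (l.rotate 1)[i]'(by simpa using hi') := by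
        simp only [h.2.2]
      have e4 : (i + 1) % l.length = i + 1 := Nat.mod_eq_of_lt hi
      rw [e1, e2] at e3
      rw [e3]
      simp only [e4]
  obtain ⟨i, hi, rfl⟩ := List.getElem_of_mem hx
  obtain ⟨k, hk, rfl⟩ := List.getElem_of_mem hy
  rw [key i hi, key k hk]

theorem lift_list {D' : Type} (j : D' → D) (C : Set D) (hj : ∀ x, x ∈ C → ∃ x', j x' = x)
    (l : List D) (hl : ∀ d ∈ l, d ∈ C) : ∃ l' : List D', l'.map j = l := by
  induction l with
  | nil => exact ⟨[], rfl⟩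
  | cons d l ih =>
    obtain ⟨l', hl'⟩ := ih (fun x hx => hl x (List.mem_cons_of_mem _ hx))
    obtain ⟨x, hx⟩ := hj d (hl d (by simp))
    exact ⟨x :: l', by simp [hl', hx]⟩

/-- restriction of an annulus to a component -/
theorem restrict (hS : SubMStatement) [Fintype D] (M : LMap V D a) (C : Set D) (P Q : List D)
    (ε : ℤ) (hpl : M.Planar) (hC : ∀ d ∈ C, M.φ d ∈ C ∧ M.ι d ∈ C) (hP : M.IsFace P)
    (hQ : M.IsFace Q) (hPC : ∀ d ∈ P, d ∈ C) (hQC : ∀ d ∈ Q, d ∈ C) (disj : ∀ d ∈ P, d ∉ Q)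
    (hoff : ∀ d ∈ C, d ∉ annB P Q → M.Tri d) (hp : M.hol P = ε) (hq : M.hol Q = -ε)
    (he : ε = 1 ∨ ε = -1) :
    ∃ (D' : Type) (_ : Fintype D') (M' : LMap V D' a) (j : D' → D) (P' Q' : List D'),
      Function.Injective j ∧ (∀ x, (∃ x', j x' = x) ↔ x ∈ C) ∧ IsAnn M' P' Q' ε ∧
      P'.map j = P ∧ Q'.map j = Q ∧
      (∀ x, M'.f x = M.f (j x) ∧ M'.t x = M.t (j x) ∧ M'.h x = M.h (j x)) := by
  obtain ⟨D', _, M', j, inj, rng, lab, sv, pl⟩ := hS V D a M C hC
  obtain ⟨P', eP⟩ := lift_list j C (fun x hx => (rng x).2 hx) P hPC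
  obtain ⟨Q', eQ⟩ := lift_list j C (fun x hx => (rng x).2 hx) Q hQC
  have face : ∀ (R : List D) (R' : List D'), R'.map j = R → M.IsFace R → M'.IsFace R' := by
    intro R R' e hR
    refine ⟨?_, ?_, ?_⟩
    · rintro rfl
      exact hR.1 (by rw [← e]; rfl)
    · have := hR.2.1
      rw [← e] at this
      exact List.Nodup.of_map j this
    · apply (List.map_injective_iff.2 inj)
      have := hR.2.2
      rw [← e] at this
      rw [List.map_map, List.map_rotate]
      rw [List.map_map] at this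
      rw [← this]
      apply List.map_congr_left
      intro x _
      exact (lab x).1
  have mem : ∀ (R : List D) (R' : List D'), R'.map j = R → ∀ x, j x ∈ R ↔ x ∈ R' := by
    intro R R' e x
    rw [← e]
    exact List.mem_map_of_injective inj
  have hol : ∀ (R : List D) (R' : List D'), R'.map j = R → M'.hol R' = M.hol R := by
    intro R R' e
    unfold LMap.hol
    rw [← e, List.map_map]
    congr 1
    apply List.map_congr_left
    intro x _
    exact (lab x).2.2.2.2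
  have memB : ∀ x, j x ∈ annB P Q ↔ x ∈ annB P' Q' := by
    intro x
    exact or_congr (mem P P' eP x) (mem Q Q' eQ x)
  refine ⟨D', inferInstance, M', j, P', Q', inj, rng, ⟨pl hpl, face P P' eP hP, face Q Q' eQ hQ,
    ?_, ⟨?_, ?_⟩, ?_, ?_, he⟩, eP, eQ, ?_⟩
  · intro d hd hd'
    exact disj (j d) ((mem P P' eP d).2 hd) ((mem Q Q' eQ d).2 hd')
  · rintro d (hd | hd)
    · exact Or.inl (face_next (face P P' eP hP) hd)
    · exact Or.inr (face_next (face Q Q' eQ hQ) hd)
  · intro d hd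
    have hT := hoff (j d) ((rng (j d)).1 ⟨d, rfl⟩) (fun h => hd ((memB d).1 h))
    refine ⟨⟨?_, ?_⟩, ?_⟩
    · apply inj
      rw [(lab _).1, (lab _).1, (lab _).1]
      exact hT.1.1
    · intro h
      apply hT.1.2
      rw [← (lab d).1, h]
    · rw [(lab _).2.2.2.2, (lab _).2.2.2.2, (lab _).2.2.2.2, (lab _).1, (lab _).1, (lab _).1]
      exact hT.2
  · rw [hol P P' eP, hp]
  · rw [hol Q Q' eQ, hq]
  · intro x
    refine ⟨(lab x).2.2.1, ?_, (lab x).2.2.2.2⟩
    unfold LMap.t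
    rw [(lab x).2.2.2.1, (lab _).2.2.1, (lab x).2.1]

theorem ann_swap [Fintype D] {M : LMap V D a} {P Q : List D} {ε : ℤ} (h : IsAnn M P Q ε) :
    IsAnn M Q P (-ε) := by
  have c : annB Q P = annB P Q := by
    unfold annB
    ext d
    exact or_comm
  refine ⟨h.planar, h.faceQ, h.faceP, fun d hq hp => h.disj d hp hq, ?_, h.holQ, ?_, ?_⟩
  · rw [c]; exact h.off
  · rw [neg_neg]; exact h.holP
  · rcases h.eps with h1 | h1
    · right; rw [h1]
    · left; rw [h1]; norm_num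

/-- sum of `h` over a union of faces -/
theorem sum_h [Fintype D] (M : LMap V D a) (P Q : List D) (ε : ℤ) (hA : IsAnn M P Q ε)
    (S : Set D) (hS : ∀ d, M.φ d ∈ S ↔ d ∈ S) :
    ∑ x : D, (if x ∈ S then M.h x else 0) =
      (if ∀ d ∈ P, d ∈ S then ε else 0) - (if ∀ d ∈ Q, d ∈ S then ε else 0) := by
  have hB : ∀ d, M.φ d ∈ annB P Q ↔ d ∈ annB P Q := stab_iff M.φ _ hA.off.1
  have e0 : ∀ x, (if x ∈ S then M.h x else 0) =
      (if x ∈ S ∧ x ∉ annB P Q then M.h x else 0) + ((if x ∈ S ∧ x ∈ P then M.h x else 0) +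
        (if x ∈ S ∧ x ∈ Q then M.h x else 0)) := by
    intro x
    by_cases h1 : x ∈ S
    · by_cases h2 : x ∈ P
      · have h3 := hA.disj x h2
        simp [h1, h2, h3, annB]
      · by_cases h3 : x ∈ Q
        · simp [h1, h2, h3, annB]
        · simp [h1, h2, h3, annB]
    · simp [h1]
  rw [sum_congr rfl (fun x _ => e0 x), sum_add_distrib, sum_add_distrib]
  have e1 : ∑ x : D, (if x ∈ S ∧ x ∉ annB P Q then M.h x else 0) = 0 := by
    set g : D → ℤ := fun x => if x ∈ S ∧ x ∉ annB P Q then M.h x else 0 with hg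
    have s1 : ∑ x, g (M.φ x) = ∑ x, g x := Equiv.sum_comp M.φ g
    have s2 : ∑ x, g (M.φ (M.φ x)) = ∑ x, g x := by
      rw [Equiv.sum_comp M.φ (fun x => g (M.φ x)), s1]
    have s3 : ∑ x, (g x + g (M.φ x) + g (M.φ (M.φ x))) = 0 := by
      apply sum_eq_zero
      intro x _
      simp only [hg]
      have k1 : (M.φ x ∈ S ∧ M.φ x ∉ annB P Q) ↔ (x ∈ S ∧ x ∉ annB P Q) := by
        rw [hS, hB]
      have k2 : (M.φ (M.φ x) ∈ S ∧ M.φ (M.φ x) ∉ annB P Q) ↔ (x ∈ S ∧ x ∉ annB P Q) := by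
        rw [hS, hB, k1]
      simp only [k1, k2]
      by_cases h : x ∈ S ∧ x ∉ annB P Q
      · simp only [if_pos h]
        exact (hA.off.2 x h.2).2
      · simp only [if_neg h]
        norm_num
    rw [sum_add_distrib, sum_add_distrib, s1, s2] at s3
    linarith
  have e2 : ∀ R : List D, M.IsFace R → ∑ x : D, (if x ∈ S ∧ x ∈ R then M.h x else 0) =
      if ∀ d ∈ R, d ∈ S then M.hol R else 0 := by
    intro R hR
    by_cases h : ∀ d ∈ R, d ∈ S
    · rw [if_pos h]
      have : ∀ x, (if x ∈ S ∧ x ∈ R then M.h x else 0) = if x ∈ R.toFinset then M.h x else 0 := by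
        intro x
        by_cases hx : x ∈ R
        · rw [if_pos ⟨h x hx, hx⟩, if_pos (List.mem_toFinset.2 hx)]
        · rw [if_neg (fun h => hx h.2), if_neg (fun h => hx (List.mem_toFinset.1 h))]
      rw [sum_congr rfl (fun x _ => this x), ← sum_filter]
      have e : (univ.filter fun x => x ∈ R.toFinset) = R.toFinset := by
        ext x; simp
      rw [e, List.sum_toFinset _ hR.2.1]
      rfl
    · rw [if_neg h]
      apply sum_eq_zero
      intro x _
      rw [if_neg]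
      rintro ⟨hx, hxR⟩
      apply h
      intro d hd
      exact (face_all hR hS hxR hd).1 hx
  rw [e1, e2 P hA.faceP, e2 Q hA.faceQ, hA.holP, hA.holQ]
  split_ifs <;> ring

theorem filter_ncard [Fintype D] (T : Set D) :
    (univ.filter (fun x => x ∈ T)).card = T.ncard := by
  rw [← Set.ncard_coe_finset]
  congr 1
  ext x
  simp

/-- one of the two annuli obtained from the cut map `M'` -/
theorem half (hS : SubMStatement) {D' : Type} [Fintype D] [Fintype D'] (X : Cx V)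
    (M : LMap V D a) (M' : LMap V D' a) (j : D → D') (jinj : Function.Injective j) (T : Set D)
    (u : D') (hu : ∀ x, j x ≠ u) (φj : ∀ x, M'.φ (j x) = j (M.φ x)) (φu : M'.φ u = u)
    (ιu : ∃ x ∈ T, j x = M'.ι u)
    (ιT : ∀ x ∈ T, M'.ι (j x) = u ∨ ∃ y ∈ T, j y = M'.ι (j x))
    (φT : ∀ x ∈ T, M.φ x ∈ T)
    (lab : ∀ x, M'.f (j x) = M.f x ∧ M'.t (j x) = M.t x ∧ M'.h (j x) = M.h x)
    (pl : M'.Planar) (R : List D) (hR : M.IsFace R) (hRT : ∀ d ∈ R, d ∈ T)
    (off : ∀ d ∈ T, d ∉ R → M.Tri d) (σ : ℤ) (hol : M.hol R = σ) (hu' : M'.h u = -σ)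
    (hσ : σ = 1 ∨ σ = -1) (adj : M'.AdjM X.G) :
    ∃ (D₁ : Type) (_ : Fintype D₁) (M₁ : LMap V D₁ a) (R₁ : List D₁) (r₁ : D₁),
      IsAnn M₁ R₁ [r₁] σ ∧ M₁.AdjM X.G ∧ SameF M R M₁ R₁ ∧ M₁.f r₁ = M'.f u ∧
      M₁.t r₁ = M'.t u ∧ Fintype.card D₁ = T.ncard + 1 := by
  obtain ⟨D₁, _, M₁, j₁, R₁, Q₁, inj₁, rng₁, ann, eR, eQ, lab₁⟩ := restrict hS M'
    {d | d = u ∨ ∃ x ∈ T, j x = d} (R.map j) [u] σ pl (by
      rintro d (rfl | ⟨x, hx, rfl⟩)
      · exact ⟨Or.inl φu, Or.inr ιu⟩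
      · refine ⟨Or.inr ⟨M.φ x, φT x hx, (φj x).symm⟩, ?_⟩
        exact ιT x hx) (by
      refine ⟨?_, ?_, ?_⟩
      · intro h
        exact hR.1 (List.map_eq_nil_iff.1 h)
      · exact hR.2.1.map jinj
      · have := congrArg (List.map j) hR.2.2
        rw [List.map_rotate] at this
        rw [← this, List.map_map, List.map_map]
        apply List.map_congr_left
        intro x _
        exact φj x) (by
      refine ⟨by simp, by simp, ?_⟩
      simp [φu]) (by
      intro d hd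
      obtain ⟨x, hx, rfl⟩ := List.mem_map.1 hd
      exact Or.inr ⟨x, hRT x hx, rfl⟩) (by
      intro d hd
      exact Or.inl (List.mem_singleton.1 hd)) (by
      intro d hd hd'
      obtain ⟨x, hx, rfl⟩ := List.mem_map.1 hd
      exact hu x (List.mem_singleton.1 hd')) (by
      rintro d (rfl | ⟨x, hx, rfl⟩) hd
      · exact absurd (Or.inr (by simp)) hd
      · have hxR : x ∉ R := fun h => hd (Or.inl (List.mem_map_of_mem h))
        have hT := off x hx hxR
        refine ⟨⟨?_, ?_⟩, ?_⟩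
        · rw [φj, φj, φj, hT.1.1]
        · rw [φj]
          exact fun h => hT.1.2 (jinj h)
        · rw [φj, φj, (lab _).2.2, (lab _).2.2, (lab _).2.2]
          exact hT.2) (by
      rw [← hol]
      unfold LMap.hol
      rw [List.map_map]
      congr 1
      apply List.map_congr_left
      intro x _
      exact (lab x).2.2) (by
      unfold LMap.hol
      simp [hu']) hσ
  have hQ : ∃ r₁, Q₁ = [r₁] ∧ j₁ r₁ = u := by
    rcases Q₁ with _ | ⟨r, _ | ⟨r', l⟩⟩
    · simp at eQ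
    · exact ⟨r, rfl, by simpa using eQ⟩
    · simp at eQ
  obtain ⟨r₁, rfl, hr₁⟩ := hQ
  have same : ∀ (W : Type) (F : D → W) (F' : D' → W) (F₁ : D₁ → W), (∀ x, F' (j x) = F x) →
      (∀ x, F₁ x = F' (j₁ x)) → R.map F = R₁.map F₁ := by
    intro W F F' F₁ h1 h2
    have e1 : R₁.map F₁ = (R₁.map j₁).map F' := by
      rw [List.map_map]
      apply List.map_congr_left
      intro x _
      exact h2 x
    rw [e1, eR, List.map_map]
    apply List.map_congr_left
    intro x _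
    exact (h1 x).symm
  refine ⟨D₁, inferInstance, M₁, R₁, r₁, ann, ?_, ⟨?_, ?_, ?_⟩, ?_, ?_, ?_⟩
  · intro d
    rw [(lab₁ d).1, (lab₁ d).2.1]
    exact adj _
  · exact same V M.f M'.f M₁.f (fun x => (lab x).1) (fun x => (lab₁ x).1)
  · exact same V M.t M'.t M₁.t (fun x => (lab x).2.1) (fun x => (lab₁ x).2.1)
  · exact same ℤ M.h M'.h M₁.h (fun x => (lab x).2.2) (fun x => (lab₁ x).2.2)
  · rw [(lab₁ r₁).1, hr₁]
  · rw [(lab₁ r₁).2.1, hr₁]
  · have e1 : (univ : Finset D₁).image j₁ =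
        insert u ((univ.filter (fun x => x ∈ T)).image j) := by
      ext d
      simp only [mem_image, mem_univ, true_and, mem_insert, mem_filter]
      rw [rng₁ d]
      rfl
    have e2 : u ∉ (univ.filter (fun x => x ∈ T)).image j := by
      intro h
      obtain ⟨x, _, hx⟩ := mem_image.1 h
      exact hu x hx
    rw [← card_univ, ← card_image_of_injective _ inj₁, e1, card_insert_of_notMem e2,
      card_image_of_injective _ jinj, filter_ncard]

/-- a union of faces containing the big face `R` and a triangle has at least `|R| + 3` darts -/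
theorem big_card [Fintype D] (M : DMap D) (T : Set D) (φT : ∀ x, M.φ x ∈ T ↔ x ∈ T) (R : List D)
    (hR : M.IsFace R) (hRT : ∀ d ∈ R, d ∈ T) (z : D) (hz : z ∈ T) (hzR : z ∉ R)
    (h3 : M.Tri3 z) : R.length + 3 ≤ T.ncard := by
  have hRs : ∀ d, M.φ d ∈ ({d | d ∈ R} : Set D) ↔ d ∈ ({d | d ∈ R} : Set D) :=
    stab_iff M.φ _ (fun d hd => face_next hR hd)
  have z1 : M.φ z ∉ R := fun h => hzR ((hRs z).1 h)
  have z2 : M.φ (M.φ z) ∉ R := fun h => z1 ((hRs _).1 h)
  have n1 : M.φ z ≠ z := h3.2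
  have n2 : M.φ (M.φ z) ≠ M.φ z := fun h => n1 (M.φ.injective h)
  have n3 : M.φ (M.φ z) ≠ z := by
    intro h
    have := h3.1
    rw [h] at this
    exact n1 this
  have hsub : insert z (insert (M.φ z) (insert (M.φ (M.φ z)) R.toFinset)) ⊆
      univ.filter (fun x => x ∈ T) := by
    intro d hd
    simp only [mem_insert, List.mem_toFinset] at hd
    simp only [mem_filter, mem_univ, true_and]
    rcases hd with rfl | rfl | rfl | hd
    · exact hz
    · exact (φT _).2 hz
    · exact (φT _).2 ((φT _).2 hz)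
    · exact hRT d hd
  have hc := card_le_card hsub
  rw [filter_ncard] at hc
  rw [card_insert_of_notMem, card_insert_of_notMem, card_insert_of_notMem,
    List.toFinset_card_of_nodup hR.2.1] at hc
  · omega
  · simpa using z2
  · simp only [mem_insert, List.mem_toFinset, not_or]
    exact ⟨n2.symm, z1⟩
  · simp only [mem_insert, List.mem_toFinset, not_or]
    exact ⟨n1.symm, n3.symm, hzR⟩

end

theorem cutm (hS : SubMStatement) (hO : CutOpStatement) (hD : DualStatement) (hV : VhStatement)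
    (hL : LabVStatement) : CutMStatement := by
  intro V D _ X a hX hfree M P Q ε p hA hadj hp hp' hpp
  obtain ⟨S, pS, pS', φS, ιS⟩ := hD D M.toDMap p hA.planar hpp
  obtain ⟨k, hk⟩ := hL V D a M p (M.ι p) hpp
  set m : ℤ := M.γ p + k with hm
  have htp : M.t p = (a ^ m) (M.f p) := by
    unfold LMap.t
    rw [hk, hm, zpow_add, Equiv.Perm.mul_apply]
  obtain ⟨D', _, M', j, n, n', jinj, nn', jn, jsurj, φj, φn, φn', ιj, ιn, ιn', lab, fn, fn', γn,
    γn', hn, hn', pl⟩ := hO V D a M p m htp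
  have hne : M.ι p ≠ p := M.ne p
  -- targets
  have tj : ∀ x, M'.t (j x) = M.t x := by
    intro x
    unfold LMap.t
    rw [(lab x).2.1, ιj x]
    by_cases h1 : x = p
    · rw [if_pos h1, fn, h1]
    · rw [if_neg h1]
      by_cases h2 : x = M.ι p
      · rw [if_pos h2, fn', h2, M.ιι]
      · rw [if_neg h2, (lab _).1]
  have tn : M'.t n = M.t (M.ι p) := by
    unfold LMap.t
    rw [γn, ιn, (lab p).1, M.γι, M.ιι]
  have tn' : M'.t n' = M.t p := by
    unfold LMap.t
    rw [γn', ιn', (lab _).1]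
  have adj' : M'.AdjM X.G := by
    intro d
    rcases jsurj d with rfl | rfl | ⟨x, rfl⟩
    · rw [fn, tn]; exact hadj _
    · rw [fn', tn']; exact hadj _
    · rw [(lab x).1, tj]; exact hadj x
  have lab' : ∀ x, M'.f (j x) = M.f x ∧ M'.t (j x) = M.t x ∧ M'.h (j x) = M.h x :=
    fun x => ⟨(lab x).1, tj x, (lab x).2.2⟩
  have φSi : ∀ d, M.φ d ∈ S ↔ d ∈ S := stab_iff M.φ S φS
  have φSc : ∀ d, M.φ d ∈ Sᶜ ↔ d ∈ Sᶜ := by
    intro d
    rw [Set.mem_compl_iff, Set.mem_compl_iff, φSi]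
  have ιSc : ∀ d ∉ S, d ≠ M.ι p → M.ι d ∉ S := by
    intro d hd hd' h
    by_cases h1 : M.ι d = p
    · exact hd' (by rw [← h1, M.ιι])
    · have := ιS _ h h1
      rw [M.ιι] at this
      exact hd this
  -- closedness of the two halves
  have c1 : ∀ x ∈ S, M'.ι (j x) = n ∨ ∃ y ∈ S, j y = M'.ι (j x) := by
    intro x hx
    rw [ιj x]
    by_cases h1 : x = p
    · rw [if_pos h1]; exact Or.inl rfl
    · rw [if_neg h1]
      by_cases h2 : x = M.ι p
      · exact absurd (h2 ▸ hx) pS'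
      · rw [if_neg h2]
        exact Or.inr ⟨M.ι x, ιS x hx h1, rfl⟩
  have c2 : ∀ x ∈ Sᶜ, M'.ι (j x) = n' ∨ ∃ y ∈ Sᶜ, j y = M'.ι (j x) := by
    intro x hx
    rw [ιj x]
    by_cases h1 : x = p
    · exact absurd (h1 ▸ pS) hx
    · rw [if_neg h1]
      by_cases h2 : x = M.ι p
      · rw [if_pos h2]; exact Or.inl rfl
      · rw [if_neg h2]
        exact Or.inr ⟨M.ι x, ιSc x hx h2, rfl⟩
  -- the sum of h
  have hsum := hV V D' a hfree.free M' {d | d = n ∨ ∃ x ∈ S, j x = d} (by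
    rintro d (rfl | ⟨x, hx, rfl⟩)
    · exact ⟨Or.inl φn, Or.inr ⟨p, pS, ιn.symm⟩⟩
    · exact ⟨Or.inr ⟨M.φ x, φS x hx, (φj x).symm⟩, c1 x hx⟩)
  have huniv : (univ : Finset D') = insert n (insert n' (univ.map ⟨j, jinj⟩)) := by
    ext d
    simp only [mem_univ, mem_insert, mem_map, Function.Embedding.coeFn_mk, true_and, true_iff]
    exact jsurj d
  rw [huniv, sum_insert, sum_insert, sum_map] at hsum
  rotate_left
  · simp only [mem_map, mem_univ, Function.Embedding.coeFn_mk, true_and, not_exists]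
    exact fun x => (jn x).2
  · simp only [mem_insert, mem_map, mem_univ, Function.Embedding.coeFn_mk, true_and, not_or,
      not_exists]
    exact ⟨nn', fun x => (jn x).1⟩
  have i1 : n ∈ ({d | d = n ∨ ∃ x ∈ S, j x = d} : Set D') := Or.inl rfl
  have i2 : n' ∉ ({d | d = n ∨ ∃ x ∈ S, j x = d} : Set D') := by
    rintro (h | ⟨x, _, hx⟩)
    · exact nn' h.symm
    · exact (jn x).2 hx
  have i3 : ∀ x, j x ∈ ({d | d = n ∨ ∃ x ∈ S, j x = d} : Set D') ↔ x ∈ S := by
    intro x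
    constructor
    · rintro (h | ⟨y, hy, hxy⟩)
      · exact absurd h (jn x).1
      · rwa [← jinj hxy]
    · intro hx
      exact Or.inr ⟨x, hx, rfl⟩
  rw [if_pos i1, if_neg i2, hn, zero_add] at hsum
  have hsum2 : ∑ x : D, (if x ∈ S then M.h x else 0) = m := by
    refine Eq.trans ?_ (neg_add_eq_zero.1 hsum).symm
    apply sum_congr rfl
    intro x _
    have e : (⟨j, jinj⟩ : D ↪ D') x = j x := rfl
    rw [e]
    by_cases hx : x ∈ S
    · rw [if_pos hx, if_pos ((i3 x).2 hx), (lab x).2.2]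
    · rw [if_neg hx, if_neg (fun h => hx ((i3 x).1 h))]
  rw [sum_h M P Q ε hA S φSi] at hsum2
  have hm0 : m ≠ 0 := by
    intro h0
    have := hadj p
    rw [htp, h0, zpow_zero] at this
    exact this.ne rfl
  -- lengths
  have len1 : X.len (M.f (M.ι p)) (M.t (M.ι p)) = X.len (M.f p) (M.t p) := by
    have hpow : ∀ (i : ℕ) x y, X.len ((a ^ i) x) ((a ^ i) y) = X.len x y := by
      intro i
      induction i with
      | zero => intro x y; rfl
      | succ i ih =>
        intro x y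
        rw [pow_succ, Equiv.Perm.mul_apply, Equiv.Perm.mul_apply, ih, hfree.len]
    have hzpow : ∀ (i : ℤ) x y, X.len ((a ^ i) x) ((a ^ i) y) = X.len x y := by
      intro i x y
      rcases Int.eq_nat_or_neg i with ⟨i, rfl | rfl⟩
      · exact hpow i x y
      · have := hpow i ((a ^ (-(i : ℤ))) x) ((a ^ (-(i : ℤ))) y)
        rw [← this, ← Equiv.Perm.mul_apply, ← Equiv.Perm.mul_apply, ← zpow_natCast, ← zpow_add]
        simp
    rw [hX.symm, ← hzpow (M.γ p)]
    congr 1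
    unfold LMap.t
    rw [M.γι, M.ιι, ← Equiv.Perm.mul_apply, ← zpow_add]
    simp
  -- off
  have offS : ∀ d, d ∉ P → d ∉ Q → M.Tri d := by
    intro d h1 h2
    exact hA.off.2 d (fun h => h.elim h1 h2)
  have tp := hA.off.2 p hp
  have tp' := hA.off.2 (M.ι p) hp'
  have pP : p ∉ P := fun h => hp (Or.inl h)
  have pQ : p ∉ Q := fun h => hp (Or.inr h)
  have pP' : M.ι p ∉ P := fun h => hp' (Or.inl h)
  have pQ' : M.ι p ∉ Q := fun h => hp' (Or.inr h)
  have cardS : S.ncard + Sᶜ.ncard = Fintype.card D := by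
    rw [Set.ncard_add_ncard_compl, Nat.card_eq_fintype_card]
  have neg1 : -ε = 1 ∨ -ε = -1 := by
    rcases hA.eps with h | h
    · right; rw [h]
    · left; rw [h]; norm_num
  by_cases bP : ∀ d ∈ P, d ∈ S
  · by_cases bQ : ∀ d ∈ Q, d ∈ S
    · rw [if_pos bP, if_pos bQ, sub_self] at hsum2
      exact absurd hsum2.symm hm0
    · -- P in S, Q in the complement
      rw [if_pos bP, if_neg bQ, sub_zero] at hsum2
      have bQ' : ∀ d ∈ Q, d ∈ Sᶜ := by
        push Not at bQ
        obtain ⟨q, hq, hqS⟩ := bQ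
        intro d hd h
        exact hqS ((face_all hA.faceQ φSi hd hq).1 h)
      obtain ⟨D₁, _, M₁, P₁, r₁, A₁, ad₁, sf₁, fr₁, tr₁, cd₁⟩ := half hS X M M' j jinj S n
        (fun x => (jn x).1) φj φn ⟨p, pS, ιn.symm⟩ c1 φS lab' (pl hA.planar) P hA.faceP bP
        (fun d hd hdP => offS d hdP (fun h => bQ' d h hd)) ε hA.holP (by rw [hn, hsum2]) hA.eps
        adj'
      obtain ⟨D₂, _, M₂, Q₂, r₂, A₂, ad₂, sf₂, fr₂, tr₂, cd₂⟩ := half hS X M M' j jinj Sᶜ n'
        (fun x => (jn x).2) φj φn' ⟨M.ι p, pS', ιn'.symm⟩ c2 (fun x hx => (φSc x).2 hx) lab'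
        (pl hA.planar) Q hA.faceQ bQ' (fun d hd hdQ => offS d (fun h => hd (bP d h)) hdQ) (-ε)
        hA.holQ (by rw [hn', ← hsum2, neg_neg]) neg1 adj'
      have A₂' := ann_swap A₂
      rw [neg_neg] at A₂'
      have k1 := big_card M.toDMap Sᶜ φSc Q hA.faceQ bQ' (M.ι p) pS' pQ' tp'.1
      have k2 := big_card M.toDMap S φSi P hA.faceP bP p pS pP tp.1
      refine ⟨D₁, D₂, inferInstance, inferInstance, M₁, M₂, P₁, r₁, r₂, Q₂, A₁, A₂', ad₁, ad₂, sf₁,
        sf₂, ?_, ?_, ⟨-k, ?_⟩, ?_, ?_⟩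
      · unfold LMap.lenM
        rw [fr₁, tr₁, fn, tn, len1]
      · unfold LMap.lenM
        rw [fr₂, tr₂, fn', tn']
      · rw [fr₂, fn', fr₁, fn, hk, ← Equiv.Perm.mul_apply, ← zpow_add]
        simp
      · rw [cd₁]; omega
      · rw [cd₂]; omega
  · have bP' : ∀ d ∈ P, d ∈ Sᶜ := by
      push Not at bP
      obtain ⟨q, hq, hqS⟩ := bP
      intro d hd h
      exact hqS ((face_all hA.faceP φSi hd hq).1 h)
    by_cases bQ : ∀ d ∈ Q, d ∈ S
    · -- Q in S, P in the complement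
      rw [if_neg bP, if_pos bQ, zero_sub] at hsum2
      obtain ⟨D₁, _, M₁, P₁, r₁, A₁, ad₁, sf₁, fr₁, tr₁, cd₁⟩ := half hS X M M' j jinj Sᶜ n'
        (fun x => (jn x).2) φj φn' ⟨M.ι p, pS', ιn'.symm⟩ c2 (fun x hx => (φSc x).2 hx) lab'
        (pl hA.planar) P hA.faceP bP' (fun d hd hdP => offS d hdP (fun h => hd (bQ d h))) ε
        hA.holP (by rw [hn', ← hsum2]) hA.eps adj'
      obtain ⟨D₂, _, M₂, Q₂, r₂, A₂, ad₂, sf₂, fr₂, tr₂, cd₂⟩ := half hS X M M' j jinj S n
        (fun x => (jn x).1) φj φn ⟨p, pS, ιn.symm⟩ c1 φS lab' (pl hA.planar) Q hA.faceQ bQ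
        (fun d hd hdQ => offS d (fun h => bP' d h hd) hdQ) (-ε) hA.holQ
        (by rw [hn, ← hsum2]) neg1 adj'
      have A₂' := ann_swap A₂
      rw [neg_neg] at A₂'
      have k1 := big_card M.toDMap Sᶜ φSc P hA.faceP bP' (M.ι p) pS' pP' tp'.1
      have k2 := big_card M.toDMap S φSi Q hA.faceQ bQ p pS pQ tp.1
      refine ⟨D₁, D₂, inferInstance, inferInstance, M₁, M₂, P₁, r₁, r₂, Q₂, A₁, A₂', ad₁, ad₂, sf₁,
        sf₂, ?_, ?_, ⟨k, ?_⟩, ?_, ?_⟩
      · unfold LMap.lenM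
        rw [fr₁, tr₁, fn', tn']
      · unfold LMap.lenM
        rw [fr₂, tr₂, fn, tn, len1]
      · rw [fr₂, fn, fr₁, fn', hk]
      · rw [cd₁]; omega
      · rw [cd₂]; omega
    · rw [if_neg bP, if_neg bQ, sub_zero] at hsum2
      exact absurd hsum2.symm hm0

end MSG.H14
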