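import Pool.Agent.Lib.MP_acafa7_al.MS.Iface2
import Pool.Agent.Lib.MP_acafa7_al.MS.H09.Ang

/-! Module EraseA: 9.5 (3d), numbers. -/

namespace MSG.H14

/-- Stewart -/
theorem stewart {r0 r1 r2 c0 c1 : ℝ} (h1 : Tr r0 c0 r1) (h2 : Tr r1 c1 r2)
    (h : ang r0 r1 c0 + ang r1 r2 c1 = Real.pi) :
    r2 * (r0 ^ 2 + r1 ^ 2 - c0 ^ 2) + r0 * (r1 ^ 2 + r2 ^ 2 - c1 ^ 2) = 0 := by
  have e : Real.cos (ang r0 r1 c0) = - Real.cos (ang r1 r2 c1) := by
    rw [← Real.cos_pi_sub, ← h]; congr 1; ring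
  rw [H09.cos_ang h1.px h1.pz h1.py (by linarith [h1.hx]) (by linarith [h1.hz])
    (by linarith [h1.hy]), H09.cos_ang h2.px h2.pz h2.py (by linarith [h2.hx])
    (by linarith [h2.hz]) (by linarith [h2.hy])] at e
  have p0 := h1.px
  have p1 := h1.pz
  have p2 := h2.pz
  field_simp at e
  linarith

theorem tr_big {r0 r1 r2 c0 c1 : ℝ} (h1 : Tr r0 c0 r1) (h2 : Tr r1 c1 r2)
    (h : ang r0 r1 c0 + ang r1 r2 c1 = Real.pi) : Tr c0 c1 (r0 + r2) := by
  have st := stewart h1 h2 h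
  have p0 := h1.px
  have p1 := h1.pz
  have p2 := h2.pz
  have q0 := h1.py
  have q1 := h2.py
  have k : r0 * (c0 ^ 2 + (r0 + r2) ^ 2 - c1 ^ 2) = (r0 + r2) * (c0 ^ 2 + r0 ^ 2 - r1 ^ 2) := by
    linarith
  have u : r0 * c1 ^ 2 < r0 * (r0 + r2 + c0) ^ 2 := by
    have : (c0 ^ 2 + r0 ^ 2 - r1 ^ 2) > - (2 * c0 * r0) := by
      nlinarith [mul_pos (show 0 < c0 + r0 - r1 by linarith [h1.hz])
        (show 0 < c0 + r0 + r1 by linarith)]
    nlinarith [mul_pos (show 0 < r0 + r2 by linarith)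
      (show 0 < (c0 ^ 2 + r0 ^ 2 - r1 ^ 2) + 2 * c0 * r0 by linarith)]
  have v : r0 * (r0 + r2 - c0) ^ 2 < r0 * c1 ^ 2 := by
    have : (c0 ^ 2 + r0 ^ 2 - r1 ^ 2) < 2 * c0 * r0 := by
      nlinarith [mul_pos (show 0 < r1 + (c0 - r0) by linarith [h1.hx])
        (show 0 < r1 - (c0 - r0) by linarith [h1.hy])]
    nlinarith [mul_pos (show 0 < r0 + r2 by linarith)
      (show 0 < 2 * c0 * r0 - (c0 ^ 2 + r0 ^ 2 - r1 ^ 2) by linarith)]
  have u' : c1 < r0 + r2 + c0 := lt_of_pow_lt_pow_left₀ 2 (by positivity)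
    (lt_of_mul_lt_mul_left u p0.le)
  have v' := abs_lt_of_sq_lt_sq (lt_of_mul_lt_mul_left v p0.le) q1.le
  rw [abs_lt] at v'
  exact ⟨q0, q1, by positivity, by linarith, by linarith, by linarith⟩

theorem erasea : EraseAStatement := by
  intro r0 r1 r2 c0 c1 h1 h2 h
  have st := stewart h1 h2 h
  have T := tr_big h1 h2 h
  have p0 := h1.px
  have p1 := h1.pz
  have p2 := h2.pz
  have q0 := h1.py
  have q1 := h2.py
  have e1 : ang c0 (r0 + r2) c1 = ang c0 r0 r1 := by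
    unfold ang
    congr 1
    have : (r0 + r2) ≠ 0 := by positivity
    field_simp
    linarith
  have e2 : ang (r0 + r2) c1 c0 = ang r2 c1 r1 := by
    unfold ang
    congr 1
    have : (r0 + r2) ≠ 0 := by positivity
    field_simp
    linarith
  refine ⟨T, e1, e2, ?_⟩
  -- angle sums
  have s0 := (H09.ang c1 c0 (r0 + r2) T.py T.px T.pz (by linarith [T.hy]) (by linarith [T.hx])
    (by linarith [T.hz])).2.2.1
  have s1 := (H09.ang r0 r1 c0 h1.px h1.pz h1.py (by linarith [h1.hx]) (by linarith [h1.hz])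
    (by linarith [h1.hy])).2.2.1
  have s2 := (H09.ang r1 r2 c1 h2.px h2.pz h2.py (by linarith [h2.hx]) (by linarith [h2.hz])
    (by linarith [h2.hy])).2.2.1
  have comm : ∀ a b c : ℝ, ang a b c = ang b a c := by
    intro a b c
    unfold ang
    congr 1
    rw [show a ^ 2 + b ^ 2 - c ^ 2 = b ^ 2 + a ^ 2 - c ^ 2 by ring,
      show 2 * a * b = 2 * b * a by ring]
  have t0 : ang c1 r1 r2 = ang r1 c1 r2 := comm _ _ _
  linarith [comm c1 r1 r2, comm c0 r0 r1, comm r2 c1 r1, comm r1 c0 r0]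

end MSG.H14
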