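import Pool.Agent.Lib.MP_acafa7_al.MS.H14.Glue
import Pool.Agent.Lib.MP_acafa7_al.MS.H14.EraseA
import Pool.Agent.Lib.MP_acafa7_al.MS.H47.QuadB

/-! Module EraseG: 9.5 (3d), functions. -/

namespace MSG.H14

open Classical

/-- coordinates of the two triangles: `x = (x1, x2)`, `y = (y1, -y2)` -/
structure Co' (c x1 x2 y1 y2 : ℝ) : Prop where
  c0 : 0 < c
  x0 : 0 < x2
  y0 : 0 < y2
  l : 0 ≤ x2 * y1 + y2 * x1
  r : 0 ≤ x2 * (c - y1) + y2 * (c - x1)

theorem mem_up {c x1 x2 y1 y2 : ℝ} (h : Co' c x1 x2 y1 y2) {p : ℂ} :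
    p ∈ convexHull ℝ {(0 : ℂ), (c : ℂ), ⟨x1, x2⟩} ↔
      0 ≤ p.im ∧ p.im * x1 ≤ p.re * x2 ∧ p.im * (c - x1) ≤ (c - p.re) * x2 := by
  have hc := h.c0
  have hx := h.x0
  rw [H47.hull3]
  constructor
  · rintro ⟨r, s, t, hr, hs, ht, hsum, hre, him⟩
    simp only [Complex.zero_re, Complex.zero_im, Complex.ofReal_re, Complex.ofReal_im] at hre him
    have hr' : r = 1 - s - t := by linarith
    refine ⟨by rw [him]; positivity, ?_, ?_⟩
    · rw [hre, him]
      have : 0 ≤ s * c * x2 := by positivity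
      nlinarith
    · rw [hre, him]
      have : 0 ≤ r * c * x2 := by positivity
      rw [hr'] at this
      nlinarith
  · rintro ⟨h1, h2, h3⟩
    refine ⟨((c - p.re) * x2 - p.im * (c - x1)) / (c * x2), (p.re * x2 - p.im * x1) / (c * x2),
      p.im / x2, div_nonneg (by linarith) (by positivity), div_nonneg (by linarith) (by positivity),
      by positivity, ?_, ?_, ?_⟩
    · field_simp
      ring
    · simp only [Complex.zero_re, Complex.ofReal_re]
      field_simp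
      ring
    · simp only [Complex.zero_im, Complex.ofReal_im]
      field_simp
      ring

theorem mem_dn {c x1 x2 y1 y2 : ℝ} (h : Co' c x1 x2 y1 y2) {p : ℂ} :
    p ∈ convexHull ℝ {(c : ℂ), (0 : ℂ), ⟨y1, -y2⟩} ↔
      p.im ≤ 0 ∧ -p.im * y1 ≤ p.re * y2 ∧ -p.im * (c - y1) ≤ (c - p.re) * y2 := by
  have hc := h.c0
  have hy := h.y0
  rw [H47.hull3]
  constructor
  · rintro ⟨r, s, t, hr, hs, ht, hsum, hre, him⟩
    simp only [Complex.zero_re, Complex.zero_im, Complex.ofReal_re, Complex.ofReal_im] at hre him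
    have hs' : s = 1 - r - t := by linarith
    have hty : 0 ≤ t * y2 := by positivity
    refine ⟨by rw [him]; linarith, ?_, ?_⟩
    · rw [hre, him]
      have : 0 ≤ r * c * y2 := by positivity
      nlinarith
    · rw [hre, him]
      have : 0 ≤ s * c * y2 := by positivity
      rw [hs'] at this
      nlinarith
  · rintro ⟨h1, h2, h3⟩
    refine ⟨(p.re * y2 + p.im * y1) / (c * y2), ((c - p.re) * y2 + p.im * (c - y1)) / (c * y2),
      -p.im / y2, div_nonneg (by linarith) (by positivity), div_nonneg (by linarith) (by positivity),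
      div_nonneg (by linarith) hy.le, ?_, ?_, ?_⟩
    · field_simp
      ring
    · simp only [Complex.zero_re, Complex.ofReal_re]
      field_simp
      ring
    · simp only [Complex.zero_im, Complex.ofReal_im]
      field_simp
      ring

theorem cross {c x1 x2 y1 y2 : ℝ} (h : Co' c x1 x2 y1 y2) {p q : ℂ}
    (hp : p ∈ convexHull ℝ {(0 : ℂ), (c : ℂ), ⟨x1, x2⟩})
    (hq : q ∈ convexHull ℝ {(c : ℂ), (0 : ℂ), ⟨y1, -y2⟩}) :
    ∃ s : ℝ, 0 ≤ s ∧ s ≤ c ∧ dist p (s : ℂ) + dist (s : ℂ) q = dist p q := by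
  have hc := h.c0
  have hx := h.x0
  have hy := h.y0
  obtain ⟨p0, p1, p2⟩ := (mem_up h).1 hp
  obtain ⟨q0, q1, q2⟩ := (mem_dn h).1 hq
  rcases eq_or_lt_of_le p0 with hp0 | hp0
  · -- p is real
    rw [← hp0] at p1 p2
    have h1 : 0 ≤ p.re := by
      by_contra hneg
      push Not at hneg
      nlinarith
    have h2 : p.re ≤ c := by
      by_contra hneg
      push Not at hneg
      nlinarith
    refine ⟨p.re, h1, h2, ?_⟩
    have e : ((p.re : ℝ) : ℂ) = p := Complex.ext (by simp) (by simp [← hp0])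
    rw [e, dist_self, zero_add]
  · have hd : 0 < p.im - q.im := by linarith
    have hl := h.l
    have hr := h.r
    -- the crossing point
    have hnum : 0 ≤ p.im * q.re + -q.im * p.re := by
      have hxy : 0 < x2 * y2 := by positivity
      have : 0 ≤ (x2 * y2) * (p.im * q.re + -q.im * p.re) := by
        have e1 : p.im * x2 * (-q.im * y1) ≤ p.im * x2 * (q.re * y2) :=
          mul_le_mul_of_nonneg_left q1 (by positivity)
        have e2 : -q.im * y2 * (p.im * x1) ≤ -q.im * y2 * (p.re * x2) :=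
          mul_le_mul_of_nonneg_left p1 (mul_nonneg (by linarith) hy.le)
        have e3 : 0 ≤ p.im * (-q.im) * (x2 * y1 + y2 * x1) :=
          mul_nonneg (mul_nonneg hp0.le (by linarith)) hl
        nlinarith
      exact nonneg_of_mul_nonneg_right this hxy
    have hnum2 : 0 ≤ p.im * (c - q.re) + -q.im * (c - p.re) := by
      have hxy : 0 < x2 * y2 := by positivity
      have : 0 ≤ (x2 * y2) * (p.im * (c - q.re) + -q.im * (c - p.re)) := by
        have e1 : p.im * x2 * (-q.im * (c - y1)) ≤ p.im * x2 * ((c - q.re) * y2) :=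
          mul_le_mul_of_nonneg_left q2 (by positivity)
        have e2 : -q.im * y2 * (p.im * (c - x1)) ≤ -q.im * y2 * ((c - p.re) * x2) :=
          mul_le_mul_of_nonneg_left p2 (mul_nonneg (by linarith) hy.le)
        have e3 : 0 ≤ p.im * (-q.im) * (x2 * (c - y1) + y2 * (c - x1)) :=
          mul_nonneg (mul_nonneg hp0.le (by linarith)) hr
        nlinarith
      exact nonneg_of_mul_nonneg_right this hxy
    refine ⟨(p.im * q.re + -q.im * p.re) / (p.im - q.im), div_nonneg hnum hd.le, ?_, ?_⟩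
    · rw [div_le_iff₀ hd]
      nlinarith
    · apply dist_add_dist_of_mem_segment
      refine ⟨-q.im / (p.im - q.im), p.im / (p.im - q.im), div_nonneg (by linarith) hd.le,
        div_nonneg hp0.le hd.le, ?_, ?_⟩
      · field_simp
        ring
      · apply Complex.ext
        · simp only [Complex.add_re, Complex.smul_re, smul_eq_mul, Complex.ofReal_re]
          field_simp
          ring
        · simp only [Complex.add_im, Complex.smul_im, smul_eq_mul, Complex.ofReal_im]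
          field_simp
          ring

/-- the hull of the four points is covered by the two triangles -/
theorem cover {c x1 x2 y1 y2 : ℝ} (h : Co' c x1 x2 y1 y2) {p : ℂ} {lv lw lx ly : ℝ}
    (h1 : 0 ≤ lv) (h2 : 0 ≤ lw) (h3 : 0 ≤ lx) (h4 : 0 ≤ ly) (hs : lv + lw + lx + ly = 1)
    (hre : p.re = lw * c + lx * x1 + ly * y1) (him : p.im = lx * x2 - ly * y2) :
    p ∈ (convexHull ℝ {(0 : ℂ), (c : ℂ), ⟨x1, x2⟩} ∪
      convexHull ℝ {(c : ℂ), (0 : ℂ), ⟨y1, -y2⟩} : Set ℂ) := by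
  have hc := h.c0
  have hx := h.x0
  have hy := h.y0
  have hl := h.l
  have hr := h.r
  have hlv : lv = 1 - lw - lx - ly := by linarith
  rcases le_total 0 p.im with h0 | h0
  · left
    rw [mem_up h]
    refine ⟨h0, ?_, ?_⟩
    · rw [hre, him]
      have e1 : 0 ≤ ly * (x2 * y1 + y2 * x1) := mul_nonneg h4 hl
      have e2 : 0 ≤ lw * c * x2 := by positivity
      nlinarith
    · rw [hre, him]
      have e1 : 0 ≤ ly * (x2 * (c - y1) + y2 * (c - x1)) := mul_nonneg h4 hr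
      have e2 : 0 ≤ lv * c * x2 := by positivity
      rw [hlv] at e2
      nlinarith
  · right
    rw [mem_dn h]
    refine ⟨h0, ?_, ?_⟩
    · rw [hre, him]
      have e1 : 0 ≤ lx * (x2 * y1 + y2 * x1) := mul_nonneg h3 hl
      have e2 : 0 ≤ lw * c * y2 := by positivity
      nlinarith
    · rw [hre, him]
      have e1 : 0 ≤ lx * (x2 * (c - y1) + y2 * (c - x1)) := mul_nonneg h3 hr
      have e2 : 0 ≤ lv * c * y2 := by positivity
      rw [hlv] at e2
      nlinarith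

theorem coo {r0 r1 r2 c0 c1 : ℝ} (h1 : Tr r0 c0 r1) (h2 : Tr r1 c1 r2)
    (st : r2 * (r0 ^ 2 + r1 ^ 2 - c0 ^ 2) + r0 * (r1 ^ 2 + r2 ^ 2 - c1 ^ 2) = 0) :
    ∃ x1 x2 : ℝ, Co' r1 x1 x2 (-(r2 / r0) * x1) ((r2 / r0) * x2) ∧ x1 ^ 2 + x2 ^ 2 = r0 ^ 2 ∧
      (r1 - x1) ^ 2 + x2 ^ 2 = c0 ^ 2 ∧
      (r1 + (r2 / r0) * x1) ^ 2 + ((r2 / r0) * x2) ^ 2 = c1 ^ 2 := by
  have p0 := h1.px
  have p1 := h1.pz
  have p2 := h2.pz
  have q0 := h1.py
  have q1 := h2.py
  have hK : 0 < r0 ^ 2 - ((r0 ^ 2 + r1 ^ 2 - c0 ^ 2) / (2 * r1)) ^ 2 := by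
    have e : r0 ^ 2 - ((r0 ^ 2 + r1 ^ 2 - c0 ^ 2) / (2 * r1)) ^ 2 =
        (2 * r1 * r0 - (r0 ^ 2 + r1 ^ 2 - c0 ^ 2)) * (2 * r1 * r0 + (r0 ^ 2 + r1 ^ 2 - c0 ^ 2)) /
          (2 * r1) ^ 2 := by
      field_simp
      ring
    rw [e]
    have a1 : 0 < 2 * r1 * r0 - (r0 ^ 2 + r1 ^ 2 - c0 ^ 2) := by
      nlinarith [mul_pos (show 0 < c0 - r0 + r1 by linarith [h1.hx])
        (show 0 < c0 + r0 - r1 by linarith [h1.hz])]
    have a2 : 0 < 2 * r1 * r0 + (r0 ^ 2 + r1 ^ 2 - c0 ^ 2) := by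
      nlinarith [mul_pos (show 0 < r0 + r1 - c0 by linarith [h1.hy])
        (show 0 < r0 + r1 + c0 by linarith)]
    positivity
  set x1 := (r0 ^ 2 + r1 ^ 2 - c0 ^ 2) / (2 * r1) with hx1
  set x2 := Real.sqrt (r0 ^ 2 - x1 ^ 2) with hx2
  have hs : x2 ^ 2 = r0 ^ 2 - x1 ^ 2 := Real.sq_sqrt hK.le
  have hx2p : 0 < x2 := Real.sqrt_pos.2 hK
  have e1 : 2 * r1 * x1 = r0 ^ 2 + r1 ^ 2 - c0 ^ 2 := by
    rw [hx1]; field_simp
  refine ⟨x1, x2, ⟨p1, hx2p, by positivity, ?_, ?_⟩, by linarith, by nlinarith, ?_⟩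
  · have : x2 * (-(r2 / r0) * x1) + r2 / r0 * x2 * x1 = 0 := by ring
    rw [this]
  · have : x2 * (r1 - -(r2 / r0) * x1) + r2 / r0 * x2 * (r1 - x1) = (x2 + r2 / r0 * x2) * r1 := by
      ring
    rw [this]
    positivity
  · have e : (r1 + (r2 / r0) * x1) ^ 2 + ((r2 / r0) * x2) ^ 2 =
        r1 ^ 2 + (r2 / r0) * (2 * r1 * x1) + (r2 / r0) ^ 2 * (x1 ^ 2 + x2 ^ 2) := by ring
    rw [e, e1, hs]
    have e' : r1 ^ 2 + r2 / r0 * (r0 ^ 2 + r1 ^ 2 - c0 ^ 2) +
        (r2 / r0) ^ 2 * (x1 ^ 2 + (r0 ^ 2 - x1 ^ 2)) = r1 ^ 2 + r2 ^ 2 + r2 / r0 *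
        (r0 ^ 2 + r1 ^ 2 - c0 ^ 2) := by
      field_simp
      ring
    rw [e']
    have e'' : r2 / r0 * (r0 ^ 2 + r1 ^ 2 - c0 ^ 2) = - (r1 ^ 2 + r2 ^ 2 - c1 ^ 2) := by
      rw [div_mul_eq_mul_div, div_eq_iff p0.ne']
      linarith
    rw [e'']
    ring

theorem eraseg (hF : FilCStatement) (hE : EraseAStatement) : EraseGStatement := by
  intro V X C hC r0 r1 r2 c0 c1 E0 F0 G F1 H h1 h2 hang f1 f2
  have st := stewart h1 h2 hang
  have T := (hE r0 r1 r2 c0 c1 h1 h2 hang).1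
  obtain ⟨x1, x2, co, k0, k1, k2⟩ := coo h1 h2 st
  have p0 := h1.px
  have p1 := h1.pz
  have p2 := h2.pz
  have q0 := h1.py
  have q1 := h2.py
  set u0 : ℂ := ⟨x1, x2⟩ with hu0
  set u2 : ℂ := ⟨-(r2 / r0) * x1, -((r2 / r0) * x2)⟩ with hu2
  have d0 : dist (0 : ℂ) u0 = r0 := H47.dist_of p0 (by rw [hu0]; simp; linarith)
  have d01 : dist u0 (r1 : ℂ) = c0 := H47.dist_of q0 (by rw [hu0]; simp; linarith)
  have d1 : dist (0 : ℂ) (r1 : ℂ) = r1 := H47.dist_of p1 (by simp)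
  have d2 : dist u2 (0 : ℂ) = r2 := H47.dist_of p2 (by
    rw [hu2]
    simp only [Complex.zero_re, Complex.zero_im, sub_zero]
    have : (-(r2 / r0) * x1) ^ 2 + (-(r2 / r0 * x2)) ^ 2 = (r2 / r0) ^ 2 * (x1 ^ 2 + x2 ^ 2) := by
      ring
    rw [this, k0]
    field_simp)
  have d12 : dist (r1 : ℂ) u2 = c1 := H47.dist_of q1 (by
    rw [hu2]
    simp only [Complex.ofReal_re, Complex.ofReal_im]
    rw [← k2]
    ring)
  have hu : u2 = -((r2 / r0 : ℝ) : ℂ) * u0 := by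
    rw [hu2, hu0]
    apply Complex.ext
    · simp
    · simp
  have d02 : dist u2 u0 = r0 + r2 := by
    have : dist u2 u0 = (r2 / r0 + 1) * dist (0 : ℂ) u0 := by
      rw [dist_eq_norm, dist_eq_norm, hu]
      have : -((r2 / r0 : ℝ) : ℂ) * u0 - u0 = ((r2 / r0 + 1 : ℝ) : ℂ) * (0 - u0) := by
        push_cast; ring
      rw [this, norm_mul, Complex.norm_real, Real.norm_of_nonneg (by positivity)]
    rw [this, d0]
    field_simp
    ring
  obtain ⟨FA, hFA⟩ := hF V X C r0 c0 r1 E0 F0 G h1 f1 0 u0 r1 d0 d01 (by rw [dist_comm]; exact d1)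
  obtain ⟨FB, hFB⟩ := hF V X C r1 c1 r2 _ F1 H h2 f2 0 r1 u2 d1 d12 d2
  -- segments
  have sg1 : ∀ s, seg u2 u0 s = seg u2 0 s := by
    intro s
    unfold seg
    rw [d02, d2, hu]
    push_cast
    have : (r0 : ℂ) ≠ 0 := by exact_mod_cast p0.ne'
    have h' : (r0 : ℂ) + r2 ≠ 0 := by
      have : (r0 + r2 : ℝ) ≠ 0 := by positivity
      exact_mod_cast this
    have h2' : (r2 : ℂ) ≠ 0 := by exact_mod_cast p2.ne'
    field_simp
    ring
  have sg2 : ∀ s, seg u2 u0 s = seg 0 u0 (s - r2) := by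
    intro s
    unfold seg
    rw [d02, d0, hu]
    push_cast
    have : (r0 : ℂ) ≠ 0 := by exact_mod_cast p0.ne'
    have h' : (r0 : ℂ) + r2 ≠ 0 := by
      have : (r0 + r2 : ℝ) ≠ 0 := by positivity
      exact_mod_cast this
    field_simp
    ring
  have hsA : ({0, u0, (r1 : ℂ)} : Set ℂ) = {0, (r1 : ℂ), u0} := by
    ext z; simp only [Set.mem_insert_iff, Set.mem_singleton_iff]; tauto
  have hsB : ({0, (r1 : ℂ), u2} : Set ℂ) = {(r1 : ℂ), 0, u2} := by
    ext z; simp only [Set.mem_insert_iff, Set.mem_singleton_iff]; tauto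
  have mA : ∀ s, 0 ≤ s → s ≤ r1 → seg 0 (r1 : ℂ) s ∈ convexHull ℝ ({0, u0, (r1 : ℂ)} : Set ℂ) := by
    intro s h0 h1
    exact seg_mem (by simp) (by simp) h0 (by rw [d1]; exact h1)
  have mB : ∀ s, 0 ≤ s → s ≤ r1 → seg 0 (r1 : ℂ) s ∈ convexHull ℝ ({0, (r1 : ℂ), u2} : Set ℂ) := by
    intro s h0 h1
    exact seg_mem (by simp) (by simp) h0 (by rw [d1]; exact h1)
  obtain ⟨F, gA, gB, gl, gn⟩ := glue X C FA FB _ _ hC hFA.lip hFB.lip hFA.near hFB.near (by
    intro p hp hq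
    rw [hsA] at hp
    rw [hsB] at hq
    obtain ⟨pa, pb, pc⟩ := (mem_up co).1 hp
    obtain ⟨qa, qb, qc⟩ := (mem_dn co).1 hq
    have him : p.im = 0 := le_antisymm qa pa
    have hx := co.x0
    rw [him] at pb pc
    have h0 : 0 ≤ p.re := by
      by_contra hneg
      push Not at hneg
      nlinarith
    have h1' : p.re ≤ r1 := by
      by_contra hneg
      push Not at hneg
      nlinarith
    have e : p = seg 0 (r1 : ℂ) p.re := by
      rw [H47.seg_real p1]
      exact Complex.ext (by simp) (by simp [him])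
    rw [e]
    have e2 := hFB.s1 p.re h0 h1'
    have e3 := hFA.s3 (r1 - p.re) (by linarith) (by linarith)
    rw [seg_rev (by rw [dist_comm]; exact d1) p1, sub_sub_cancel] at e3
    rw [e2, e3]) (by
    intro p hp q hq
    rw [hsA] at hp
    rw [hsB] at hq
    obtain ⟨s, s0, s1, hs⟩ := cross co hp hq
    rw [← H47.seg_real p1] at hs
    exact ⟨_, mA s s0 s1, mB s s0 s1, hs⟩)
  have cv : convexHull ℝ ({u0, (r1 : ℂ), u2} : Set ℂ) ⊆
      convexHull ℝ ({0, u0, (r1 : ℂ)} : Set ℂ) ∪ convexHull ℝ ({0, (r1 : ℂ), u2} : Set ℂ) := by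
    intro p hp
    obtain ⟨r, s, t, hr, hs, ht, hsum, hre, him⟩ := H47.hull3.1 hp
    rw [hsA, hsB]
    simp only [Complex.ofReal_re, Complex.ofReal_im] at hre him
    exact cover co (lv := 0) (lw := s) (lx := r) (ly := t) le_rfl hs hr ht (by linarith)
      (by rw [hre, hu0, hu2]; ring) (by rw [him, hu0, hu2]; ring)
  have eH : H r2 = E0 0 := by
    have e1 := hFB.s3 r2 p2.le le_rfl
    rw [seg_rev d2 p2, sub_self, seg_zero] at e1
    have e2 := hFA.s1 0 le_rfl p0.le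
    rw [seg_zero] at e2
    rw [← e1, ← e2, ← gA 0 (subset_convexHull _ _ (by simp)),
      ← gB 0 (subset_convexHull _ _ (by simp))]
  have key : ∀ s, 0 ≤ s → s ≤ r0 + r2 → F (seg u2 u0 s) = if s ≤ r2 then H s else E0 (s - r2) := by
    intro s s0 s1
    by_cases hs : s ≤ r2
    · rw [if_pos hs, sg1, gB _ (seg_mem (by simp) (by simp) s0 (by rw [d2]; exact hs)),
        hFB.s3 s s0 hs]
    · push Not at hs
      rw [if_neg (not_le.2 hs), sg2, gA _ (seg_mem (by simp) (by simp) (by linarith)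
        (by rw [d0]; linarith)), hFA.s1 _ (by linarith) (by linarith)]
  refine ⟨⟨u0, r1, u2, F, d01, d12, d02, ?_, ?_, ?_, ?_, key⟩, eH, ?_⟩
  · intro p hp q hq z
    exact gl p (cv hp) q (cv hq) z
  · intro p hp
    exact gn p (cv hp)
  · intro s s0 s1
    rw [gA _ (seg_mem (by simp) (by simp) s0 (by rw [d01]; exact s1))]
    exact hFA.s2 s s0 s1
  · intro s s0 s1
    rw [gB _ (seg_mem (by simp) (by simp) s0 (by rw [d12]; exact s1))]
    exact hFB.s2 s s0 s1
  · intro s s' s0 s1 s0' s1' z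
    rw [← key s s0 s1, ← key s' s0' s1']
    have := gl (seg u2 u0 s) (cv (seg_mem (by simp) (by simp) s0 (by rw [d02]; exact s1)))
      (seg u2 u0 s') (cv (seg_mem (by simp) (by simp) s0' (by rw [d02]; exact s1'))) z
    rwa [seg_dist (by rw [d02]; positivity)] at this

end MSG.H14
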