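import Pool.Agent.Lib.MP_acafa7_al.MS.H14.Glue

/-! Module FlipG: 9.1, geometry of the flip. -/

namespace MSG.H14

open Classical

theorem flipg (hF : FilCStatement) (hA : QuadAStatement) (hB : QuadBStatement) :
    FlipGStatement := by
  intro V X C hC c a1 a2 b1 b2 E A1 A2 B1 B2 hQ f1 f2
  obtain ⟨L, hL⟩ := hA c a1 a2 b1 b2 hQ
  obtain ⟨v, w, x, y, d1, d2, d3, d4, d5, d6, cr, it, cv1, cv2⟩ := hB c a1 a2 b1 b2 L hQ hL
  obtain ⟨FA, hFA⟩ := hF V X C c a1 a2 E A1 A2 hQ.ta f1 v w x d1 d2 d3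
  obtain ⟨FB, hFB⟩ := hF V X C c b1 b2 _ B1 B2 hQ.tb f2 w v y (by rw [dist_comm]; exact d1) d4 d5
  have hc := hQ.ta.px
  have hL0 := hL.ta.px
  have mA : ∀ s, 0 ≤ s → s ≤ c → seg v w s ∈ convexHull ℝ ({v, w, x} : Set ℂ) := by
    intro s h0 h1
    exact seg_mem (by simp) (by simp) h0 (by rw [d1]; exact h1)
  have mB : ∀ s, 0 ≤ s → s ≤ c → seg v w s ∈ convexHull ℝ ({w, v, y} : Set ℂ) := by
    intro s h0 h1
    exact seg_mem (by simp) (by simp) h0 (by rw [d1]; exact h1)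
  obtain ⟨F, gA, gB, gl, gn⟩ := glue X C FA FB _ _ hC hFA.lip hFB.lip hFA.near hFB.near (by
    intro p hp hq
    obtain ⟨s, h0, h1, rfl⟩ := it ⟨hp, hq⟩
    rw [hFA.s1 s h0 h1, seg_rev d1 hc s, hFB.s1 (c - s) (by linarith) (by linarith)]
    congr 1
    ring) (by
    intro p hp q hq
    obtain ⟨s, h0, h1, h2⟩ := cr p hp q hq
    exact ⟨_, mA s h0 h1, mB s h0 h1, h2⟩)
  have hy : y ∈ convexHull ℝ ({w, v, y} : Set ℂ) := subset_convexHull _ _ (by simp)
  have hx : x ∈ convexHull ℝ ({v, w, x} : Set ℂ) := subset_convexHull _ _ (by simp)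
  have eL : seg y x L = x := by
    rw [seg_rev d6 hL0, sub_self, seg_zero]
  refine ⟨L, fun s => F (seg y x s), hL, ?_, ?_, ?_, ?_, ?_⟩
  · show F (seg y x 0) = _
    rw [seg_zero, gB y hy]
    have := hFB.s3 0 le_rfl hQ.tb.pz.le
    rwa [seg_zero] at this
  · show F (seg y x L) = _
    rw [eL, gA x hx]
    have := hFA.s3 0 le_rfl hQ.ta.pz.le
    rwa [seg_zero] at this
  · intro s s' h0 h1 h0' h1' z
    have := gl (seg y x s) (cv1 (seg_mem (by simp) (by simp) h0 (by rw [d6]; exact h1)))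
      (seg y x s') (cv1 (seg_mem (by simp) (by simp) h0' (by rw [d6]; exact h1'))) z
    rwa [seg_dist (by rw [d6]; exact hL0.ne')] at this
  · refine ⟨y, x, v, F, d6, d3, d4, ?_, ?_, ?_, ?_, ?_⟩
    · intro p hp q hq z
      exact gl p (cv1 hp) q (cv1 hq) z
    · intro p hp
      exact gn p (cv1 hp)
    · intro s _ _; rfl
    · intro s h0 h1
      rw [gA _ (seg_mem (by simp) (by simp) h0 (by rw [d3]; exact h1))]
      exact hFA.s3 s h0 h1
    · intro s h0 h1
      rw [gB _ (seg_mem (by simp) (by simp) h0 (by rw [d4]; exact h1))]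
      exact hFB.s2 s h0 h1
  · refine ⟨x, y, w, F, by rw [dist_comm]; exact d6, d5, d2, ?_, ?_, ?_, ?_, ?_⟩
    · intro p hp q hq z
      exact gl p (cv2 hp) q (cv2 hq) z
    · intro p hp
      exact gn p (cv2 hp)
    · intro s _ _
      show F (seg x y s) = F (seg y x (L - s))
      rw [seg_rev (by rw [dist_comm]; exact d6) hL0]
    · intro s h0 h1
      rw [gB _ (seg_mem (by simp) (by simp) h0 (by rw [d5]; exact h1))]
      exact hFB.s3 s h0 h1
    · intro s h0 h1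
      rw [gA _ (seg_mem (by simp) (by simp) h0 (by rw [d2]; exact h1))]
      exact hFA.s2 s h0 h1

end MSG.H14
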