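import Pool.Agent.Lib.MP_acafa7_al.MS.Iface2

/-! Glueing fillings of triangles; used by FlipG and EraseG. -/

namespace MSG.H14

open Classical

theorem seg_zero (A B : ℂ) : seg A B 0 = A := by
  unfold seg; simp

theorem seg_mem {A B : ℂ} {S : Set ℂ} {s : ℝ} (hA : A ∈ S) (hB : B ∈ S) (h0 : 0 ≤ s)
    (h1 : s ≤ dist A B) : seg A B s ∈ convexHull ℝ S := by
  have hc := convex_convexHull ℝ S
  have h2 : s / dist A B ≤ 1 := div_le_one_of_le₀ h1 dist_nonneg
  have h3 : 0 ≤ s / dist A B := div_nonneg h0 dist_nonneg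
  have h := hc (subset_convexHull ℝ S hA) (subset_convexHull ℝ S hB) (sub_nonneg.2 h2) h3
    (by ring)
  have e : seg A B s = (1 - s / dist A B) • A + (s / dist A B) • B := by
    unfold seg
    simp only [Complex.real_smul]
    push_cast
    ring
  rw [e]
  exact h

theorem seg_dist {A B : ℂ} (h : dist A B ≠ 0) (s s' : ℝ) :
    dist (seg A B s) (seg A B s') = |s - s'| := by
  unfold seg
  rw [dist_add_left, dist_eq_norm, ← sub_mul, norm_mul, ← Complex.ofReal_sub, Complex.norm_real,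
    ← sub_div, Real.norm_eq_abs, abs_div, ← dist_eq_norm, dist_comm B A, abs_of_nonneg dist_nonneg,
    div_mul_cancel₀ _ h]

theorem seg_rev {A B : ℂ} {l : ℝ} (h : dist A B = l) (hl : 0 < l) (s : ℝ) :
    seg A B s = seg B A (l - s) := by
  unfold seg
  rw [dist_comm B A, h]
  have e : ((l - s) / l : ℝ) = 1 - s / l := by field_simp
  rw [e]
  push_cast
  ring

/-- glueing of two Lipschitz families -/
theorem glue {V : Type} (X : Cx V) (C : ℝ) (FA FB : ℂ → V → ℝ) (S T : Set ℂ) (hC : 0 ≤ C)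
    (lA : ∀ p ∈ S, ∀ q ∈ S, ∀ z, |FA p z - FA q z| ≤ C * dist p q)
    (lB : ∀ p ∈ T, ∀ q ∈ T, ∀ z, |FB p z - FB q z| ≤ C * dist p q)
    (nA : ∀ p ∈ S, Near X (FA p)) (nB : ∀ p ∈ T, Near X (FB p))
    (ag : ∀ p ∈ S, p ∈ T → FA p = FB p)
    (cr : ∀ p ∈ S, ∀ q ∈ T, ∃ m, m ∈ S ∧ m ∈ T ∧ dist p m + dist m q = dist p q) :
    ∃ F : ℂ → V → ℝ, (∀ p ∈ S, F p = FA p) ∧ (∀ p ∈ T, F p = FB p) ∧
      (∀ p ∈ S ∪ T, ∀ q ∈ S ∪ T, ∀ z, |F p z - F q z| ≤ C * dist p q) ∧
      (∀ p ∈ S ∪ T, Near X (F p)) := by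
  have hS : ∀ p ∈ S, (fun p => if p ∈ S then FA p else FB p) p = FA p := by
    intro p hp
    exact if_pos hp
  have hT : ∀ p ∈ T, (fun p => if p ∈ S then FA p else FB p) p = FB p := by
    intro p hp
    by_cases h : p ∈ S
    · rw [← ag p h hp]
      exact if_pos h
    · exact if_neg h
  set F : ℂ → V → ℝ := fun p => if p ∈ S then FA p else FB p with hF
  have hST : ∀ p ∈ S, ∀ q ∈ T, ∀ z, |F p z - F q z| ≤ C * dist p q := by
    intro p hp q hq z
    obtain ⟨m, mS, mT, hm⟩ := cr p hp q hq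
    have h1 := lA p hp m mS z
    have h2 := lB m mT q hq z
    rw [← hS p hp, ← hS m mS] at h1
    rw [← hT m mT, ← hT q hq] at h2
    calc |F p z - F q z| = |(F p z - F m z) + (F m z - F q z)| := by congr 1; ring
      _ ≤ |F p z - F m z| + |F m z - F q z| := abs_add_le _ _
      _ ≤ C * dist p m + C * dist m q := add_le_add h1 h2
      _ = C * dist p q := by rw [← mul_add, hm]
  refine ⟨F, hS, hT, ?_, ?_⟩
  · rintro p (hp | hp) q (hq | hq) z
    · rw [hS p hp, hS q hq]; exact lA p hp q hq z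
    · exact hST p hp q hq z
    · rw [abs_sub_comm, dist_comm]; exact hST q hq p hp z
    · rw [hT p hp, hT q hq]; exact lB p hp q hq z
  · rintro p (hp | hp)
    · rw [hS p hp]; exact nA p hp
    · rw [hT p hp]; exact nB p hp

end MSG.H14
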